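import Pool.Agent.Y687.MQ.Fin
import Pool.Agent.Y687.JQ.Sha
import Pool.Agent.V11291.FK.Int

/-!
# The weak Birch and Swinnerton-Dyer conjecture for the twists of `X_0(14)` by products of a fixed number
# of primes from an arbitrary set of primes of positive density

`E_D : y² = x³ + 5805 D² x - 285714 D³` is the twist by `D` of the curve `E_1 = X_0(14)` (no complex
multiplication, `2`-division field `ℚ(√-7)`).  The class `Adm` consists of the squarefree integers `D`,
positive or negative, `1` modulo `4`, prime to `42`, squares modulo `7`, whose prime divisors split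
completely in `ℚ(i, √2, √-7)` or are inert in `ℚ(√2)` and in `ℚ(√-7)`.

`D` is good if `L(E_D, 1) ≠ 0`, the group `E_D(ℚ)` is finite and `Ш(E_D/ℚ)` has no element of order two.

We fix the number `k` of the split prime divisors of `D` and the numbers `a`, `b` of the inert prime
divisors which are `3` and `5` modulo `8`, and an arbitrary set `S` of primes which contains a positive
lower proportion of the primes of each of the kinds that occur (no other condition).

Theorem.  Let `b` be even and `a + b ≥ 1`.  The number of the `D` of the class, `|D| ≤ X`, with exactly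
`k`, `a`, `b` prime divisors of the three kinds, all of them in `S`, has the order of magnitude
`X (log log X)^(k + a + b - 1) / log X`, and the proportion of the good ones among them tends to the
rational number `∏_{i < (k + 1) / 2} (1 - 2^{-(2 i + 1)})`, which is `1`, `1/2`, `1/2`, `7/16`, `7/16`, …
for `k = 0, 1, 2, 3, 4, …`: the proportion of the nonsingular matrices among the symmetric
`k` times `k` matrices over the field with two elements.

The conditions hold, for instance, for the primes in a residue class modulo any number prime to `14`.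

The proof.  `D` is good if and only if a matrix `R D` over `𝔽₂` is nonsingular (team, library; also the
implication for the `L`-value and the large sieve for quadratic symbols).  The `k + a + b` prime
divisors of almost all `D` are larger than any given power of `log X`; in boxes the symbols of
the primes are equidistributed by the large sieve, for arbitrary subsets of the primes, since an error
of a power of the logarithm is enough.  No Siegel-Walfisz theorem is needed for the law; the lower bound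
for the number of the `D` uses only the hypothesis on `S`.
-/

set_option autoImplicit false

open Finset Filter Topology

namespace Pool.Agent.Results.MP_8b7eba_nt.FixedNumberOfPrimes

/-- coefficients of the twist `E_D : y² = x³ + A D x + B D` of `X_0(14)` -/
def A (D : ℤ) : ℤ := 5805 * D ^ 2

/-- coefficients of the twist `E_D : y² = x³ + A D x + B D` of `X_0(14)` -/
def B (D : ℤ) : ℤ := -285714 * D ^ 3

/-- the curve `E_D` over `ℚ` -/
def E (D : ℤ) : WeierstrassCurve ℚ :=
  { a₁ := 0, a₂ := 0, a₃ := 0, a₄ := (A D : ℚ), a₆ := (B D : ℚ) }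

/-- number of points of `E_D` over `ZMod p`, the point at infinity included -/
noncomputable def N (D : ℤ) (p : ℕ) : ℕ :=
  1 + Nat.card {z : ZMod p × ZMod p // z.2 ^ 2 = z.1 ^ 3 + (A D : ZMod p) * z.1 + (B D : ZMod p)}

/-- `f` is an entire function which equals the Euler product of `E_D` over the primes
`p ∤ 2 (4 A³ + 27 B²)` on `Re s > 3 / 2` -/
def IsL (D : ℤ) (f : ℂ → ℂ) : Prop :=
  Differentiable ℂ f ∧ ∀ s : ℂ, (3 : ℝ) / 2 < s.re →
    HasProd
      (fun p : {p : ℕ // p.Prime ∧ ¬ ((p : ℤ) ∣ 2 * (4 * A D ^ 3 + 27 * B D ^ 2))} =>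
        ((1 : ℂ) - (((p.1 : ℤ) + 1 - (N D p.1 : ℤ) : ℤ) : ℂ) * ((p.1 : ℂ) ^ (-s))
          + (p.1 : ℂ) ^ (1 - 2 * s))⁻¹)
      (f s)

/-- `E_D(ℚ)` is finite and `Ш(E_D/ℚ)` has no element of order two -/
def RankZeroShaTwo (D : ℤ) : Prop :=
  Finite (E D).toAffine.Point ∧ ∀ x : Pool.Agent.TH841.SH.D.Sha (E D), 2 • x = 0 → x = 0

/-- `E_D` is an elliptic curve, `L(E_D, s)` has an entire continuation which does not vanish at `s = 1`,
the group `E_D(ℚ)` is finite and `Ш(E_D/ℚ)` has no element of order two -/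
def Good (D : ℤ) : Prop :=
  4 * A D ^ 3 + 27 * B D ^ 2 ≠ 0 ∧ (∃ f : ℂ → ℂ, IsL D f) ∧ (∀ f : ℂ → ℂ, IsL D f → f 1 ≠ 0) ∧
    RankZeroShaTwo D

/-- primes which split completely in `ℚ(i, √2, √-7)` -/
def Split (p : ℕ) : Prop := p.Prime ∧ p % 8 = 1 ∧ (p % 7 = 1 ∨ p % 7 = 2 ∨ p % 7 = 4)

/-- primes inert in `ℚ(√2)` and in `ℚ(√-7)` -/
def Inert (q : ℕ) : Prop :=
  q.Prime ∧ (q % 8 = 3 ∨ q % 8 = 5) ∧ (q % 7 = 3 ∨ q % 7 = 5 ∨ q % 7 = 6)

/-- the class of discriminants -/
def Adm (D : ℤ) : Prop := Squarefree D ∧ D % 4 = 1 ∧ (D % 7 = 1 ∨ D % 7 = 2 ∨ D % 7 = 4) ∧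
  ∀ p : ℕ, p.Prime → (p : ℤ) ∣ D → p ≠ 3 ∧ (Split p ∨ Inert p)

/-- the prime factors `≡ 1 mod 8` of `D` -/
def P1 (D : ℤ) : Finset ℕ := D.natAbs.primeFactors.filter fun p => p % 8 = 1

open Classical in
/-- the matrix over `𝔽₂` with rows and columns indexed by `P1 D`: off the diagonal the
entry at `(p, p')` is `1` if `p'` is not a square modulo `p` and `0` otherwise; on the diagonal it
is the number of the prime factors of `D` different from `p` which are not squares modulo `p`, plus
`1` if the number of points of `X_0(14)` modulo `p` is not divisible by `8` -/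
noncomputable def R (D : ℤ) : Matrix (P1 D) (P1 D) (ZMod 2) := Matrix.of fun i j =>
  if i = j then
    (((D.natAbs.primeFactors.filter fun r : ℕ => r ≠ (i : ℕ) ∧
      ¬ IsSquare (r : ZMod (i : ℕ))).card : ZMod 2) + if 8 ∣ N 1 (i : ℕ) then 0 else 1)
  else if IsSquare (((j : ℕ)) : ZMod (i : ℕ)) then 0 else 1

/-- the number of the prime factors of `D` which are `r` modulo `8` -/
def number (r : ℕ) (D : ℤ) : ℕ := (D.natAbs.primeFactors.filter fun p => p % 8 = r).card

/-- the `D` of the class with all the prime factors in `S`, exactly `k` of them split (these are the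
prime factors `1` modulo `8`), and exactly `a` and `b` of them inert and `3` and `5` modulo `8` -/
def Family (S : Set ℕ) (k a b : ℕ) (D : ℤ) : Prop :=
  Adm D ∧ (∀ p : ℕ, p.Prime → (p : ℤ) ∣ D → p ∈ S) ∧ number 1 D = k ∧ number 3 D = a ∧ number 5 D = b

/-- at least a positive proportion of the primes up to `Y` has the property `Q`, for all large `Y` -/
def Dense (Q : ℕ → Prop) : Prop := ∃ (δ : ℝ) (Y₀ : ℕ), 0 < δ ∧ ∀ Y : ℕ, Y₀ ≤ Y →
  δ * (Y / Real.log Y) ≤ (Nat.card {p : ℕ // p ≤ Y ∧ Q p} : ℝ)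

/-- the primes of the class in `S` which are `r` modulo `8` -/
def Kind (S : Set ℕ) (r p : ℕ) : Prop := p ∈ S ∧ p ≠ 3 ∧ (Split p ∨ Inert p) ∧ p % 8 = r

/-- `S` contains a positive lower proportion of the primes of each of the kinds that occur -/
def Rich (S : Set ℕ) (k a b : ℕ) : Prop :=
  (1 ≤ k → Dense (Kind S 1)) ∧ (1 ≤ a → Dense (Kind S 3)) ∧ (1 ≤ b → Dense (Kind S 5))

/-- the number of the integers `D` with `|D| ≤ X` and `Q D` -/
noncomputable def count (Q : ℤ → Prop) (X : ℕ) : ℕ := Nat.card {D : ℤ // |D| ≤ X ∧ Q D}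

/-- the proportion `∏_{i < (k + 1) / 2} (1 - 2^{-(2 i + 1)})` of the nonsingular matrices among the
symmetric `k` times `k` matrices over the field with two elements -/
noncomputable def proportion (k : ℕ) : ℝ :=
  ∏ i ∈ range ((k + 1) / 2), (1 - (1 / 2 : ℝ) ^ (2 * i + 1))

/-- the law for the family -/
def Law (S : Set ℕ) (k a b : ℕ) : Prop :=
  (∃ (c C : ℝ) (X₀ : ℕ), 0 < c ∧ 0 < C ∧ ∀ X : ℕ, X₀ ≤ X →
    c * (X * Real.log (Real.log X) ^ (k + a + b - 1) / Real.log X) ≤ (count (Family S k a b) X : ℝ) ∧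
    (count (Family S k a b) X : ℝ) ≤
      C * (X * Real.log (Real.log X) ^ (k + a + b - 1) / Real.log X)) ∧
  Tendsto (fun X : ℕ => (count (fun D => Family S k a b D ∧ Good D) X : ℝ) /
    (count (Family S k a b) X : ℝ)) atTop (𝓝 (proportion k))

lemma R_eq (D : ℤ) : R D = Pool.Agent.Y687.MQ.matD D := by
  have hN : ∀ p : ℕ, N 1 p = Pool.Agent.Y687.NN 1 p := fun p => by
    unfold N Pool.Agent.Y687.NN Pool.Agent.Y687.cnt A B
    rw [add_comm]
    norm_num
  unfold R Pool.Agent.Y687.MQ.matD
  ext i j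
  simp only [Matrix.of_apply, hN]
  rfl

lemma rzs_iff {D : ℤ} (hD : Adm D) : RankZeroShaTwo D ↔ (R D).det ≠ 0 := by
  have hD' : Pool.Agent.Y687.MQ.AdmD D := hD
  rw [R_eq]
  refine Iff.trans ?_ (Pool.Agent.Y687.JQ.rzs_iff hD')
  unfold RankZeroShaTwo Pool.Agent.Y687.JQ.RZS
  refine and_congr Iff.rfl (forall_congr' fun x => ?_)
  rw [two_nsmul]
  rfl

lemma good_iff {D : ℤ} (hD : Adm D) : Good D ↔ (R D).det ≠ 0 := by
  have hL : ∀ (D : ℤ) (f : ℂ → ℂ), IsL D f ↔ (Differentiable ℂ f ∧
      (∀ s : ℂ, (3 : ℝ) / 2 < s.re →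
        HasProd (fun l : {l : ℕ // l.Prime ∧
            ¬ ((l : ℤ) ∣ 2 * (4 * (5805 * D ^ 2) ^ 3 +
              27 * (-285714 * D ^ 3) ^ 2))} =>
          Pool.Agent.Y687.fac (5805 * D ^ 2) (-285714 * D ^ 3) s l)
          (f s))) := by
    intro D f
    unfold IsL Pool.Agent.Y687.fac
    refine and_congr Iff.rfl (forall_congr' fun s => imp_congr Iff.rfl ?_)
    have : ∀ l : ℕ, (l : ℤ) + 1 - (N D l : ℤ) = (l : ℤ) - (Nat.card {q : ZMod l × ZMod l //
        q.2 ^ 2 = q.1 ^ 3 + ((5805 * D ^ 2 : ℤ) : ZMod l) * q.1 +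
          ((-285714 * D ^ 3 : ℤ) : ZMod l)} : ℤ) := by
      intro l
      unfold N A B
      push_cast
      ring
    simp only [this]
    rfl
  constructor
  · intro h
    exact (rzs_iff hD).1 h.2.2.2
  · intro hdet
    have hz := (rzs_iff hD).2 hdet
    rw [R_eq] at hdet
    have hD' : Pool.Agent.Y687.MQ.AdmD D := hD
    obtain ⟨⟨f, hf, hfp, hf1⟩, -⟩ := Pool.Agent.Y687.MQ.WB_D hD' hdet
    have hM : D ≠ 0 := hD.1.ne_zero
    refine ⟨?_, ⟨f, (hL _ f).2 ⟨hf, hfp⟩⟩, ?_, hz⟩
    · have e : 4 * A D ^ 3 + 27 * B D ^ 2 = (4 * 5805 ^ 3 + 27 * 285714 ^ 2) * D ^ 6 := by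
        unfold A B
        ring
      rw [e]
      exact mul_ne_zero (by norm_num) (pow_ne_zero 6 hM)
    · intro g hg
      obtain ⟨hg1, hg2⟩ := (hL _ g).1 hg
      rw [Pool.Agent.Y687.unique_f hg1 hf hg2 hfp]
      exact hf1

open Pool.Agent.V11291.FK (Nf Dn Dc Cp) in
lemma fam_iff (S : Set ℕ) (k a b : ℕ) (D : ℤ) : Family S k a b D ↔ Nf (fun p => p ∈ S) k a b D := by
  unfold Family Nf
  refine ⟨fun ⟨h1, h2, h3⟩ => ⟨h1, fun p hp => h2 p (Nat.prime_of_mem_primeFactors hp)
    (Int.natCast_dvd.2 (Nat.dvd_of_mem_primeFactors hp)), h3⟩, fun ⟨h1, h2, h3⟩ =>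
    ⟨h1, fun p hp hd => h2 p (Nat.mem_primeFactors.2 ⟨hp, Int.natCast_dvd.1 hd,
      Int.natAbs_ne_zero.2 h1.1.ne_zero⟩), h3⟩⟩

open Pool.Agent.V11291.FK (Nf Dn Dc Cp) in
lemma kind_iff (S : Set ℕ) (r p : ℕ) : Kind S r p ↔ (p ∈ S ∧ Cp p ∧ p % 8 = r) := by
  unfold Kind Cp
  refine and_congr_right fun _ => ?_
  rw [← and_assoc]
  refine and_congr_left fun _ => ?_
  unfold Split Inert Pool.Agent.Y703.CQ.Sp Pool.Agent.Y703.CQ.In
  rw [Finset.mem_insert, Finset.mem_singleton]
  constructor
  · rintro ⟨h1, h2 | h2⟩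
    · exact Or.inl h2
    · exact Or.inr ⟨h2.1, h1, h2.2.1, h2.2.2⟩
  · rintro (h | h)
    · refine ⟨?_, Or.inl h⟩
      rintro rfl
      exact absurd h.2.1 (by norm_num)
    · exact ⟨h.2.1, Or.inr ⟨h.1, h.2.2.1, h.2.2.2⟩⟩

open Pool.Agent.V11291.FK (Nf Dn Dc Cp) in
lemma dense_iff (S : Set ℕ) (r : ℕ) :
    Dense (Kind S r) ↔ Dn fun p => p ∈ S ∧ Cp p ∧ p % 8 = r := by
  classical
  unfold Dense Dn
  have h : ∀ Y : ℕ, Nat.card {p : ℕ // p ≤ Y ∧ Kind S r p} =
      ((range (Y + 1)).filter fun p => p ∈ S ∧ Cp p ∧ p % 8 = r).card := by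
    intro Y
    rw [← Fintype.card_coe, ← Nat.card_eq_fintype_card]
    refine Nat.card_congr (Equiv.subtypeEquivRight fun p => ?_)
    rw [Finset.mem_filter, Finset.mem_range, kind_iff, Nat.lt_succ_iff]
  simp only [h]
  refine exists_congr fun δ => exists_congr fun Y₀ => and_congr_right fun _ =>
    forall_congr' fun Y => imp_congr_right fun _ => ?_
  rw [iff_iff_eq]
  congr!

open Pool.Agent.V11291.FK (Nf Dn Dc Cp) in
lemma rich_iff (S : Set ℕ) (k a b : ℕ) : Rich S k a b ↔ Dc (fun p => p ∈ S) k a b := by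
  unfold Rich Dc
  rw [dense_iff, dense_iff, dense_iff]

/-- **Main theorem.**
(1) A number `D` of the class is good if and only if `E_D(ℚ)` is finite and `Ш(E_D/ℚ)[2] = 0`, and if and
only if the matrix `R D` is nonsingular.
(2) Let `b` be even, `a + b ≥ 1`, and let `S` be a set of primes which contains a positive lower
proportion of the primes of each of the kinds that occur.  Then the number of the `D` of the class with
exactly `k`, `a`, `b` prime factors of the three kinds, all in `S`, and `|D| ≤ X` is between two positive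
constants times `X (log log X)^(k + a + b - 1) / log X`, and the proportion of the good `D` among them
tends to `∏_{i < (k + 1) / 2} (1 - 2^{-(2 i + 1)})`.
(3) The `D` of these families are positive if `a` is even and negative if `a` is odd; there are none if
`b` is odd.
(4) The condition on `S` holds if `S` is the set of the numbers in a residue class `c` modulo `q`, with
`q` prime to `14` and `c` prime to `q`. -/
theorem result :
    (∀ D : ℤ, Adm D → (Good D ↔ RankZeroShaTwo D) ∧ (Good D ↔ (R D).det ≠ 0)) ∧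
    (∀ (S : Set ℕ) (k a b : ℕ), Even b → 1 ≤ a + b → Rich S k a b → Law S k a b) ∧
    (∀ (S : Set ℕ) (k a b : ℕ) (D : ℤ), Family S k a b D → (0 < D ↔ Even a) ∧ Even b) ∧
    ∀ q c : ℕ, Nat.Coprime q 14 → Nat.Coprime c q → ∀ k a b : ℕ, Rich {p | p % q = c % q} k a b := by
  classical
  refine ⟨fun D hD => ⟨?_, good_iff hD⟩, fun S k a b hb hab hS => ?_, fun S k a b D hD => ?_,
    fun q c hq hc k a b => (rich_iff _ k a b).2 (Pool.Agent.V11291.FK.dc_class hq hc k a b)⟩
  · rw [good_iff hD, rzs_iff hD]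
  · have hS' := (rich_iff S k a b).1 hS
    have e1 : ∀ X : ℕ, count (Family S k a b) X =
        Pool.Agent.V11291.FK.cnt (Pool.Agent.V11291.FK.Nf (fun p => p ∈ S) k a b) X := by
      intro X
      have : Family S k a b = Pool.Agent.V11291.FK.Nf (fun p => p ∈ S) k a b :=
        funext fun D => propext (fam_iff S k a b D)
      rw [this]
      rfl
    have e2 : ∀ X : ℕ, count (fun D => Family S k a b D ∧ Good D) X =
        Pool.Agent.V11291.FK.cnt (fun D => Pool.Agent.V11291.FK.Nf (fun p => p ∈ S) k a b D ∧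
          (Pool.Agent.Y687.MQ.matD D).det ≠ 0) X := by
      intro X
      have : (fun D => Family S k a b D ∧ Good D) = fun D =>
          Pool.Agent.V11291.FK.Nf (fun p => p ∈ S) k a b D ∧ (Pool.Agent.Y687.MQ.matD D).det ≠ 0 := by
        funext D
        apply propext
        rw [fam_iff]
        refine and_congr_right fun h => ?_
        rw [good_iff h.1, R_eq]
        exact Iff.rfl
      rw [this]
      rfl
    refine ⟨?_, ?_⟩
    · simp only [e1]
      exact Pool.Agent.V11291.FK.D_size hb hab hS'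
    · simp only [e1, e2]
      exact Pool.Agent.V11291.FK.D_law hb hab hS'
  · obtain ⟨h1, -, -, h3, h5⟩ := hD
    have h1' : Pool.Agent.Y687.MQ.AdmD D := h1
    have h6 := Pool.Agent.Y703.CQ.sign_iff h1'
    have h7 := (Pool.Agent.Y687.JQ.CL_iff.1 (Pool.Agent.Y687.JQ.of_adm h1').1).2
    unfold number at h3 h5
    refine ⟨?_, ?_⟩
    · rw [h6, ← h3, Nat.even_iff]
    · rw [← h5, Nat.even_iff]
      exact h7

end Pool.Agent.Results.MP_8b7eba_nt.FixedNumberOfPrimes
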