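import Pool.Agent.V11333.RieszReal
import Pool.Agent.V11288.BS.Cur
import Pool.Agent.TH941.Newform

/-!
# One-sided numerical forms of the conjecture of Birch and Swinnerton-Dyer

Let `C : y² = x³ + a x + b` be an elliptic curve over `ℚ`, `a, b ∈ ℤ`, let `N_p` be the number of
affine points modulo the good primes `p ∤ 2Δ`, let `F` be the entire continuation of the incomplete
`L`-series and `m = ord_{s=1} F`. The numerical form in which Birch and Swinnerton-Dyer found their
conjecture is `R_0(x) = ∑_{p ≤ x, p ∤ 2Δ} log ((N_p + 1)/p) = rank log log x + O(1)`. We consider its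
Riesz means

`R_κ(x) = ∑_{p ≤ x, p ∤ 2Δ} (1 - log p / log x)^κ log ((N_p + 1)/p)`.

The theorem of Goldfeld (1982) and the hand-in `MP_696deb_nt.EveryCompactWeight` start from two-sided
information, an asymptotic formula or convergence. Here only bounds from ONE side are used.

1. Without any hypothesis, for all `k = 0, 1, 2, ...` there is `M` with `R_k(x) > m log log x - M` for
   arbitrarily large `x`.
2. If `F(s) = 0`, `Re s > 1`, then `R_κ(x) > K x^θ` for arbitrarily large `x`, for all real `κ ≥ 0`, all `K`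
   and all `θ < Re s - 1`. So an upper bound `R_κ(x) ≤ x^ε` for all large `x`, for all `ε > 0`, implies the
   Riemann hypothesis for `F`.
3. If `F` has no real zeros `> 1`, both are true with the reversed signs: `R_k(x) < m log log x + M`
   and, if `F(s) = 0`, `R_κ(x) < - K x^θ` for arbitrarily large `x`.
4. An upper bound `R_k(x) ≤ K log log x` for large `x` implies `R_{k+1}(x) / log log x → m`.
5. Let `f` be the newform of `C`. If `R_κ(x) ≤ x^ε` for large `x`, for all `ε > 0` and one `κ ≥ 0`, then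
   `R_λ(x) - m log log x` converges for all `λ > 0`. For `κ > 0` the bound
   `R_κ(x) ≤ ρ log log x + O(1)` is equivalent to: `F` has no zeros with `Re s > 1`, and `m ≤ ρ`.
   The following are equivalent: the rank form `m = rank` and the Riemann hypothesis for `F`;
   `limsup (R_κ(x) - rank log log x)` is a real number for one `κ > 0`; the same for all `κ > 0`;
   for some `κ ≥ 0` and `λ > 0`, `R_κ(x) ≤ x^ε` for large `x` for all `ε > 0`, and `rank` is a limit point of
   `R_λ(x) / log log x`.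
6. The weak form: for `κ > 0`, `R_κ` is bounded above if and only if `F` has no zeros with `Re s > 1` and
   `F(1) ≠ 0`. So [the Riemann hypothesis for `F`, and `F(1) = 0` iff `E(ℚ)` is infinite] is equivalent to
   [`R_κ(x) ≤ x^ε` for large `x`, for all `ε > 0`, and `R_κ` is bounded above iff `E(ℚ)` is finite], for one
   `κ > 0` or for all `κ > 0`.

Proof. 1, 4 and the first part of 3 are theorems of the starting files (`Pool.Agent.W263.BSD.Final`);
2 and the second part of 3 generalise the case of subexponential bounds there: by Landau's theorem the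
Laplace transform of a function with a one-sided bound has a singularity at the real point of its line
of convergence, and the sign at the real zeros excludes these for upper bounds; real orders are reduced
to natural orders, since the means of larger order are averages of those of smaller order.
5 combines this with the limits of the Riesz means under the Riemann hypothesis
(`Pool.Agent.TH942.RZ`).
-/

set_option autoImplicit false

namespace Pool.Agent.Results.MP_8b7eba_nt.OneSidedRieszMeans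

open Pool.Agent.W263.BSD Filter Topology Classical MeasureTheory Set
open CongruenceSubgroup UpperHalfPlane
open scoped MatrixGroups

/-- The rational points of `y² = x³ + a x + b`, with the point at infinity. -/
abbrev Points (a b : ℤ) : Type :=
  WeierstrassCurve.Affine.Point
    (WeierstrassCurve.toAffine
      ({ a₁ := 0, a₂ := 0, a₃ := 0, a₄ := (a : ℚ), a₆ := (b : ℚ) } : WeierstrassCurve ℚ))

/-- The rank of the group of rational points of `y² = x³ + a x + b`. -/
noncomputable def rank (a b : ℤ) : ℕ := Module.finrank ℤ (Points a b)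

/-- The Riesz mean `R_κ(x) = ∑_{p ≤ x, p ∤ 2Δ} (1 - log p / log x)^κ log ((N_p + 1) / p)` of real order
`κ ≥ 0`; for `κ = 0` it is the logarithm of the original product of Birch and Swinnerton-Dyer. -/
noncomputable def riesz (a b : ℤ) (κ x : ℝ) : ℝ :=
  ∑ p ∈ (Finset.range (⌊x⌋₊ + 1)).filter (GoodPrime a b),
    (1 - Real.log p / Real.log x) ^ κ * Real.log (((pointCount a b p : ℝ) + 1) / p)

/-- The `n`-th Fourier coefficient of `f`. -/
noncomputable def coef {N : ℕ} (f : CuspForm (Gamma0 N : Subgroup (GL (Fin 2) ℝ)) 2) (n : ℕ) : ℂ :=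
  (qExpansion 1 f).coeff n

/-- `f ∈ S_2(Γ₀(N))` is the newform of the elliptic curve `E : y² = x³ + a x + b` of conductor `N`: the
Fourier coefficients `c(n)` of `f` are real with `c(1) = 1`, they satisfy the Hecke relations
`c(mn) = c(m) c(n)` for coprime `m`, `n` and `c(p^(j+2)) = c(p) c(p^(j+1)) - p c(p^j)` (without the last
term if `p ∣ N`), `c(p) = a_p = p - N_p` (`N_p` affine points) for all primes `p ∤ 2Δ`, `|c(p)| ≤ 2 √p` for
all `p ∤ N` (Hasse) and `c(p) = 0, 1, -1` for `p ∣ N`. -/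
structure IsNewformOf (a b : ℤ) (N : ℕ) (f : CuspForm (Gamma0 N : Subgroup (GL (Fin 2) ℝ)) 2) :
    Prop where
  one : coef f 1 = 1
  real : ∀ n, (coef f n).im = 0
  mul : ∀ m n : ℕ, Nat.Coprime m n → coef f (m * n) = coef f m * coef f n
  pow : ∀ p j : ℕ, p.Prime → coef f (p ^ (j + 2)) = coef f p * coef f (p ^ (j + 1)) -
      (if p ∣ N then 0 else (p : ℂ) * coef f (p ^ j))
  points : ∀ p : ℕ, GoodPrime a b p → coef f p = (p : ℂ) - (pointCount a b p : ℂ)
  good : ∀ p : ℕ, p.Prime → ¬ p ∣ N → ‖coef f p‖ ≤ 2 * Real.sqrt p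
  bad : ∀ p : ℕ, p.Prime → p ∣ N → coef f p = 0 ∨ coef f p = 1 ∨ coef f p = -1

/-- `F` has no zeros with `Re s > 1`. -/
def NoZeros (F : ℂ → ℂ) : Prop := ∀ s : ℂ, 1 < s.re → F s ≠ 0

/-- `limsup g(x)` for `x → ∞` is a real number. -/
def FiniteLimsup (g : ℝ → ℝ) : Prop :=
  ∃ M : ℝ, (∀ᶠ x : ℝ in atTop, g x ≤ M) ∧ ∃ᶠ x : ℝ in atTop, -M ≤ g x

/-- `g(x) ≤ x^ε` for all large `x`, for every `ε > 0`: a bound from above only. -/
def UpperSubpower (g : ℝ → ℝ) : Prop := ∀ ε : ℝ, 0 < ε → ∀ᶠ x : ℝ in atTop, g x ≤ x ^ ε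

/-- `g(x)` is bounded above for large `x`. -/
def BoundedAbove (g : ℝ → ℝ) : Prop := ∃ M : ℝ, ∀ᶠ x : ℝ in atTop, g x ≤ M

theorem hecke {a b : ℤ} {N : ℕ} {f : CuspForm (Gamma0 N : Subgroup (GL (Fin 2) ℝ)) 2}
    (hf : IsNewformOf a b N f) : Pool.Agent.TH941.Hecke f where
  one := hf.one
  real := hf.real
  mul := hf.mul
  pow := hf.pow
  good := hf.good
  bad := fun p hp h => by
    rcases hf.bad p hp h with h1 | h1 | h1
    · have h2 : ‖coef f p‖ ≤ 1 := by rw [h1]; simp
      exact h2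
    · have h2 : ‖coef f p‖ ≤ 1 := by rw [h1]; simp
      exact h2
    · have h2 : ‖coef f p‖ ≤ 1 := by rw [h1]; simp
      exact h2

variable {a b : ℤ} {F : ℂ → ℂ}

theorem riesz_nat (k : ℕ) (x : ℝ) : riesz a b k x = rieszMean a b k x :=
  Pool.Agent.V11333.RieszOne.rieszR_nat k x

theorem loglog : Tendsto (fun x : ℝ => Real.log (Real.log x)) atTop atTop :=
  Real.tendsto_log_atTop.comp Real.tendsto_log_atTop

/-- comparison of the coefficients of `log log x` -/
theorem le_of_freq {ρ σ M : ℝ} (h : ∃ᶠ x : ℝ in atTop,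
    ρ * Real.log (Real.log x) ≤ σ * Real.log (Real.log x) + M) : ρ ≤ σ := by
  by_contra hcon
  push Not at hcon
  refine h ?_
  filter_upwards [(loglog.const_mul_atTop (sub_pos.2 hcon)).eventually_gt_atTop M] with x hx
  rw [not_le]
  linarith

/-- **One-sided numerical forms of the conjecture of Birch and Swinnerton-Dyer.** -/
theorem result (a b : ℤ) (hΔ : 4 * a ^ 3 + 27 * b ^ 2 ≠ 0) (F : ℂ → ℂ) (hF : IsLSeries a b F) :
    ∃ m : ℕ, analyticOrderAt F 1 = m ∧
    (∀ k : ℕ, ∃ M : ℝ, ∃ᶠ x : ℝ in atTop, m * Real.log (Real.log x) - M < riesz a b k x) ∧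
    (∀ (κ : ℝ) (s : ℂ), 0 ≤ κ → 1 < s.re → F s = 0 → ∀ θ K : ℝ, θ < s.re - 1 →
      ∃ᶠ x : ℝ in atTop, K * x ^ θ < riesz a b κ x) ∧
    ((∀ σ : ℝ, 1 < σ → F σ ≠ 0) →
      (∀ k : ℕ, ∃ M : ℝ, ∃ᶠ x : ℝ in atTop, riesz a b k x < m * Real.log (Real.log x) + M) ∧
      ∀ (κ : ℝ) (s : ℂ), 0 ≤ κ → 1 < s.re → F s = 0 → ∀ θ K : ℝ, θ < s.re - 1 →
        ∃ᶠ x : ℝ in atTop, riesz a b κ x < -(K * x ^ θ)) ∧
    (∀ (k : ℕ) (K : ℝ), (∀ᶠ x : ℝ in atTop, riesz a b k x ≤ K * Real.log (Real.log x)) →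
      Tendsto (fun x : ℝ => riesz a b (k + 1) x / Real.log (Real.log x)) atTop (𝓝 m)) ∧
    ∀ (N : ℕ) [NeZero N] (f : CuspForm (Gamma0 N : Subgroup (GL (Fin 2) ℝ)) 2),
      IsNewformOf a b N f →
      (∀ κ : ℝ, 0 ≤ κ → UpperSubpower (riesz a b κ) → ∀ l : ℝ, 0 < l → ∃ c : ℝ,
        Tendsto (fun x : ℝ => riesz a b l x - m * Real.log (Real.log x)) atTop (𝓝 c)) ∧
      (∀ κ : ℝ, 0 < κ → ∀ ρ : ℝ,
        (∃ M : ℝ, ∀ᶠ x : ℝ in atTop, riesz a b κ x ≤ ρ * Real.log (Real.log x) + M) ↔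
          NoZeros F ∧ m ≤ ρ) ∧
      List.TFAE [
        NoZeros F ∧ analyticOrderAt F 1 = rank a b,
        ∃ κ : ℝ, 0 < κ ∧ FiniteLimsup fun x => riesz a b κ x - rank a b * Real.log (Real.log x),
        ∀ κ : ℝ, 0 < κ → FiniteLimsup fun x => riesz a b κ x - rank a b * Real.log (Real.log x),
        ∃ κ l : ℝ, 0 ≤ κ ∧ 0 < l ∧ UpperSubpower (riesz a b κ) ∧
          MapClusterPt (rank a b : ℝ) atTop fun x => riesz a b l x / Real.log (Real.log x)] ∧
      (∀ κ : ℝ, 0 < κ → (BoundedAbove (riesz a b κ) ↔ NoZeros F ∧ F 1 ≠ 0)) ∧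
      List.TFAE [
        NoZeros F ∧ (F 1 = 0 ↔ Infinite (Points a b)),
        ∃ κ : ℝ, 0 < κ ∧ UpperSubpower (riesz a b κ) ∧
          (BoundedAbove (riesz a b κ) ↔ Finite (Points a b)),
        ∀ κ : ℝ, 0 < κ → UpperSubpower (riesz a b κ) ∧
          (BoundedAbove (riesz a b κ) ↔ Finite (Points a b))] := by
  obtain ⟨m, hm⟩ := order_finite hF
  have h1 : ∀ k : ℕ, ∃ M : ℝ, ∃ᶠ x : ℝ in atTop,
      m * Real.log (Real.log x) - M < riesz a b k x := by
    intro k
    simp only [riesz_nat]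
    exact upper hF hm k
  have hup : ∀ κ : ℝ, 0 ≤ κ → UpperSubpower (riesz a b κ) → NoZeros F := by
    intro κ hκ hk s hs
    refine Pool.Agent.V11333.RieszOne.no_zeros_upperR hF hκ le_rfl (fun ε hε => ?_) (by linarith)
    filter_upwards [hk ε hε] with x hx
    rw [zero_add]
    exact hx
  refine ⟨m, hm, h1, ?_, ?_, ?_, fun N _ f hf => ?_⟩
  · intro κ s hκ hs h0 θ K hθ
    exact Pool.Agent.V11333.RieszOne.omega_plusR hF hκ hs h0 hθ
  · intro hne
    refine ⟨fun k => ?_, fun κ s hκ hs h0 θ K hθ => ?_⟩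
    · simp only [riesz_nat]
      exact lower hF hm hne k
    · exact Pool.Agent.V11333.RieszOne.omega_minusR hF hne hκ hs h0 hθ
  · intro k K h
    have h2 := mean hF hm k (K := K) (by simpa only [riesz_nat] using h)
    have e : ∀ x : ℝ, riesz a b (k + 1) x = rieszMean a b (k + 1) x := by
      intro x
      rw [← riesz_nat]
      push_cast
      rfl
    simp only [e]
    exact h2
  -- the limits under the Riemann hypothesis
  have hlim : NoZeros F → ∀ κ : ℝ, 0 < κ → ∃ c : ℝ,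
      Tendsto (fun x : ℝ => riesz a b κ x - m * Real.log (Real.log x)) atTop (𝓝 c) := by
    intro hz κ hκ
    have hrs : Tendsto (rsSum a b) atTop (𝓝 0) :=
      (hecke hf).rsSum_tendsto hΔ fun p hp => hf.points p hp
    obtain ⟨c, h4, -⟩ := Pool.Agent.TH942.RZ.curve_riesz hΔ hrs
      (Pool.Agent.TH942.RZ.growth_newform hΔ hF (hecke hf) fun p hp => hf.points p hp) hF hm hz hκ
    refine ⟨c, (h4.comp Real.tendsto_log_atTop).congr' ?_⟩
    filter_upwards [eventually_gt_atTop 1] with X hX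
    simp only [Function.comp_apply]
    rw [← Pool.Agent.TH942.RZ.rz_eq hκ hX]
    rfl
  have hbd : NoZeros F → ∀ κ : ℝ, 0 < κ → ∃ M : ℝ, ∀ᶠ x : ℝ in atTop,
      riesz a b κ x ≤ m * Real.log (Real.log x) + M ∧
      m * Real.log (Real.log x) - M ≤ riesz a b κ x := by
    intro hz κ hκ
    obtain ⟨c, hc⟩ := hlim hz κ hκ
    refine ⟨|c| + 1, ?_⟩
    filter_upwards [hc.eventually (Metric.ball_mem_nhds c one_pos)] with x hx
    rw [Real.dist_eq, abs_lt] at hx
    have h2 := le_abs_self c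
    have h3 := neg_abs_le c
    constructor <;> linarith
  have hsub : ∀ (κ ρ M : ℝ), (∀ᶠ x : ℝ in atTop,
      riesz a b κ x ≤ ρ * Real.log (Real.log x) + M) → UpperSubpower (riesz a b κ) := by
    intro κ ρ M h ε hε
    filter_upwards [h, Pool.Agent.V11333.RieszOne.loglog_bound ρ M hε] with x h2 h3
    exact h2.trans h3
  have hll : ∀ᶠ x : ℝ in atTop, 0 ≤ Real.log (Real.log x) := loglog.eventually_ge_atTop 0
  have h5b : ∀ κ : ℝ, 0 < κ → ∀ ρ : ℝ,
      (∃ M : ℝ, ∀ᶠ x : ℝ in atTop, riesz a b κ x ≤ ρ * Real.log (Real.log x) + M) ↔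
        NoZeros F ∧ m ≤ ρ := by
    intro κ hκ ρ
    constructor
    · rintro ⟨M, h⟩
      have hz := hup κ hκ.le (hsub κ ρ M h)
      refine ⟨hz, ?_⟩
      obtain ⟨M', h2⟩ := hbd hz κ hκ
      refine le_of_freq (M := M + M') ((h2.and h).mono fun x hx => ?_).frequently
      linarith [hx.1.2, hx.2]
    · rintro ⟨hz, hρ⟩
      obtain ⟨M, h⟩ := hbd hz κ hκ
      refine ⟨M, ?_⟩
      filter_upwards [h, hll] with x h2 h3
      have := mul_le_mul_of_nonneg_right hρ h3
      linarith [h2.1]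
  have hF1 : F 1 ≠ 0 ↔ m = 0 := by
    have hA : AnalyticAt ℂ F 1 := hF.1.analyticAt 1
    rw [← hA.analyticOrderAt_eq_zero, hm]
    exact_mod_cast Iff.rfl
  have h6 : ∀ κ : ℝ, 0 < κ → (BoundedAbove (riesz a b κ) ↔ NoZeros F ∧ F 1 ≠ 0) := by
    intro κ hκ
    have h := h5b κ hκ 0
    simp only [zero_mul, zero_add] at h
    rw [BoundedAbove, h, hF1]
    constructor
    · rintro ⟨h1, h2⟩
      exact ⟨h1, by exact_mod_cast le_antisymm h2 (Nat.cast_nonneg m)⟩
    · rintro ⟨h1, h2⟩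
      exact ⟨h1, by rw [h2]; simp⟩
  have hweak : List.TFAE [
        NoZeros F ∧ (F 1 = 0 ↔ Infinite (Points a b)),
        ∃ κ : ℝ, 0 < κ ∧ UpperSubpower (riesz a b κ) ∧
          (BoundedAbove (riesz a b κ) ↔ Finite (Points a b)),
        ∀ κ : ℝ, 0 < κ → UpperSubpower (riesz a b κ) ∧
          (BoundedAbove (riesz a b κ) ↔ Finite (Points a b))] := by
    tfae_have 1 → 3 := by
      rintro ⟨hz, hr⟩ κ hκ
      obtain ⟨M, h⟩ := hbd hz κ hκ
      refine ⟨hsub κ m M (h.mono fun x hx => hx.1), ?_⟩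
      rw [h6 κ hκ, ← not_infinite_iff_finite, ← hr]
      exact ⟨fun h => h.2, fun h => ⟨hz, h⟩⟩
    tfae_have 3 → 2 := fun h => ⟨1, one_pos, h 1 one_pos⟩
    tfae_have 2 → 1 := by
      rintro ⟨κ, hκ, h1, h2⟩
      have hz := hup κ hκ.le h1
      refine ⟨hz, ?_⟩
      rw [h6 κ hκ, ← not_infinite_iff_finite] at h2
      tauto
    tfae_finish
  refine ⟨fun κ hκ hk l hl => hlim (hup κ hκ hk) l hl, h5b, ?_, h6, hweak⟩
  have hrat : NoZeros F → ∀ l : ℝ, 0 < l →
      Tendsto (fun x : ℝ => riesz a b l x / Real.log (Real.log x)) atTop (𝓝 m) := by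
    intro hz l hl
    obtain ⟨c, hc⟩ := hlim hz l hl
    have h2 := (hc.div_atTop loglog).add_const (m : ℝ)
    rw [zero_add] at h2
    refine h2.congr' ?_
    filter_upwards [loglog.eventually_gt_atTop 0] with x hx
    field_simp
    ring
  tfae_have 1 → 3 := by
    rintro ⟨hz, hr⟩ κ hκ
    have hmr : m = rank a b := by
      rw [hm] at hr
      exact_mod_cast hr
    obtain ⟨M, h⟩ := hbd hz κ hκ
    rw [hmr] at h
    refine ⟨M, h.mono fun x hx => ?_, (h.mono fun x hx => ?_).frequently⟩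
    · linarith [hx.1]
    · linarith [hx.2]
  tfae_have 3 → 2 := fun h => ⟨1, one_pos, h 1 one_pos⟩
  tfae_have 2 → 1 := by
    rintro ⟨κ, hκ, M, h2, h3⟩
    have h4 : ∀ᶠ x : ℝ in atTop, riesz a b κ x ≤ rank a b * Real.log (Real.log x) + M := by
      filter_upwards [h2] with x hx
      linarith
    obtain ⟨hz, hle⟩ := (h5b κ hκ _).1 ⟨M, h4⟩
    obtain ⟨M', h5⟩ := hbd hz κ hκ
    have hge : (rank a b : ℝ) ≤ m := by
      refine le_of_freq (M := M + M') ((h3.and_eventually h5).mono fun x hx => ?_)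
      linarith [hx.1, hx.2.1]
    refine ⟨hz, ?_⟩
    have : m = rank a b := by exact_mod_cast le_antisymm hle hge
    rw [hm, this]
  tfae_have 1 → 4 := by
    rintro ⟨hz, hr⟩
    have hmr : m = rank a b := by
      rw [hm] at hr
      exact_mod_cast hr
    obtain ⟨M, h⟩ := hbd hz 1 one_pos
    refine ⟨1, 1, zero_le_one, one_pos, hsub 1 m M (h.mono fun x hx => hx.1), ?_⟩
    have h2 := hrat hz 1 one_pos
    rw [hmr] at h2
    exact h2.mapClusterPt
  tfae_have 4 → 1 := by
    rintro ⟨κ, l, hκ, hl, h2, h3⟩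
    have hz := hup κ hκ h2
    have h4 : Filter.map (fun x : ℝ => riesz a b l x / Real.log (Real.log x)) atTop ≤ 𝓝 (m : ℝ) :=
      hrat hz l hl
    have h5 : (𝓝 (rank a b : ℝ) ⊓ 𝓝 (m : ℝ)).NeBot :=
      (ClusterPt.mono h3 h4 : ClusterPt (rank a b : ℝ) (𝓝 (m : ℝ)))
    have h6 : (rank a b : ℝ) = m := eq_of_nhds_neBot h5
    refine ⟨hz, ?_⟩
    have : m = rank a b := by exact_mod_cast h6.symm
    rw [hm, this]
  tfae_finish

end Pool.Agent.Results.MP_8b7eba_nt.OneSidedRieszMeans
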