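import Pool.Agent.V11333.Cone8

/-!
# Vanishing of `L(E, 1)` and lower bounds of Euler products with a slack

Let `E : y² = x³ + a x + b` be an elliptic curve over a number field `K` (in the problem: `K = ℚ`),
`a, b ∈ 𝓞_K`, and let `L(E, s) = ∏_v (1 - a_v q_v^{-s} + q_v^{1 - 2s})⁻¹` be its `L`-function, without the
Euler factors at the primes `v` dividing `6 (4 a³ + 27 b²)` (they are finite and nonzero at `s = 1`). The
only hypothesis is that `L(E, s)` has a continuation `F` along the REAL axis to `s ≥ 1`, analytic at the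
real points; zeros are allowed. Over `K = ℚ` the entire continuation is known. Let

`S_ρ(Y) = ∑_{v, k ≥ 1} w_ρ(k log q_v / log Y) t_k(v) / (k q_v^k)`,
`w_ρ(u) = (1/2πi) ∫ exp(z - u z^{1/ρ}) dz/z`, `ρ > 1`,

where `t_k(v)` is the trace of the `k`-th power of Frobenius and `q_v^k ≤ exp ((log Y)^{ρ'})` (any
`ρ' > ρ`): the smoothed logarithm of the Euler product at `s = 1`. It is shown that for all `ρ₀ ≥ 1` and
every real `t` with `0 ≤ t < 1`:

`S_ρ(Y) ≥ - t log log Y - C` for large `Y`, for all `ρ > ρ₀`, if and only if `L(E, 1) ≠ 0` and `L(E, s)` has a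
holomorphic continuation without zeros to the sector `|arg (s - 1)| < π/(2ρ₀)`

(for `ρ₀ = 1` the half plane `Re s > 1`). In particular the lower bound with the slack `t log log Y`, `t < 1`,
already implies that the `S_ρ(Y)` are bounded below. So, when `L(E, s)` has no zeros in the half plane
`Re s > 1`, the assertion of the problem for `E` is: `E(K)` is infinite if and only if these lower bounds
fail.
-/

set_option autoImplicit false

namespace Pool.Agent.Results.MP_8b7eba_nt.OneSidedVanishing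

open Filter Topology Set NumberField IsDedekindDomain

variable {K : Type} [Field K] [NumberField K]

/-- The norm `q_v`. -/
noncomputable def nrm (v : HeightOneSpectrum (𝓞 K)) : ℕ := Ideal.absNorm v.asIdeal

/-- `v` does not divide `6 (4 a³ + 27 b²)`. -/
def Good (a b : 𝓞 K) (v : HeightOneSpectrum (𝓞 K)) : Prop :=
  6 * (4 * a ^ 3 + 27 * b ^ 2) ∉ v.asIdeal

/-- The number of affine points of `y² = x³ + a x + b` modulo `v`. -/
noncomputable def pts (a b : 𝓞 K) (v : HeightOneSpectrum (𝓞 K)) : ℕ :=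
  Nat.card {P : (𝓞 K ⧸ v.asIdeal) × (𝓞 K ⧸ v.asIdeal) //
    P.2 ^ 2 = P.1 ^ 3 + Ideal.Quotient.mk v.asIdeal a * P.1 + Ideal.Quotient.mk v.asIdeal b}

/-- The trace `t_k(v)` of the `k`-th power of Frobenius: `t_0 = 2`, `t_1 = a_v = q_v - N_v` and
`t_{k+2} = a_v t_{k+1} - q_v t_k`. -/
noncomputable def trace (a b : 𝓞 K) (v : HeightOneSpectrum (𝓞 K)) : ℕ → ℝ
  | 0 => 2
  | 1 => (nrm v : ℝ) - pts a b v
  | (k + 2) => ((nrm v : ℝ) - pts a b v) * trace a b v (k + 1) - nrm v * trace a b v k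

/-- The Euler factor `(1 - a_v q_v^{-s} + q_v^{1 - 2s})⁻¹`, `a_v = q_v - N_v`. -/
noncomputable def factor (a b : 𝓞 K) (v : HeightOneSpectrum (𝓞 K)) (s : ℂ) : ℂ :=
  (1 - ((nrm v : ℂ) - pts a b v) * (nrm v : ℂ) ^ (-s) + (nrm v : ℂ) ^ (1 - 2 * s))⁻¹

/-- The open sector `|arg (s - 1)| < π/(2ρ)` with vertex `1`. -/
def Sector (ρ : ℝ) : Set ℂ := {s | s ≠ 1 ∧ |(s - 1).arg| < Real.pi / (2 * ρ)}

/-- `F` is a continuation of `L(E, s)` along the real axis: analytic at all real `x ≥ 1`, and equal to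
the Euler product for real `x > 3/2`. -/
def IsRealContinuation (a b : 𝓞 K) (F : ℂ → ℂ) : Prop :=
  (∀ x : ℝ, 1 ≤ x → AnalyticAt ℂ F x) ∧
    ∀ x : ℝ, 3 / 2 < x → HasProd (fun v : {v // Good a b v} => factor a b v.1 x) (F x)

/-- `L(E, s)` has a holomorphic continuation `G` without zeros to the union of the sector
`|arg (s - 1)| < π/(2ρ₀)` and the half plane `Re s > 3/2`. -/
def ZeroFree (a b : 𝓞 K) (ρ₀ : ℝ) : Prop :=
  ∃ G : ℂ → ℂ, (∀ s : ℂ, s ∈ Sector ρ₀ ∨ 3 / 2 < s.re → DifferentiableAt ℂ G s ∧ G s ≠ 0) ∧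
    ∀ s : ℂ, 3 / 2 < s.re → HasProd (fun v : {v // Good a b v} => factor a b v.1 s) (G s)

/-- The weight `w_ρ(u) = (1/2πi) ∫_{Re z = 1} exp(z - u z^{1/ρ}) dz/z`. -/
noncomputable def weight (ρ u : ℝ) : ℝ :=
  (2 * Real.pi)⁻¹ * ∫ t : ℝ, (Complex.exp ((1 + t * Complex.I) -
    u * (1 + t * Complex.I) ^ ((ρ⁻¹ : ℝ) : ℂ)) / (1 + t * Complex.I)).re

/-- `S_ρ(Y)`: the sum of `w_ρ(k log q_v / log Y) t_k(v) / (k q_v^k)` over the good primes `v` and the
`k ≥ 1` (here `k = p.2 + 1`) with `q_v^k ≤ exp ((log Y)^{ρ'})`. -/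
noncomputable def mean (a b : 𝓞 K) (ρ ρ' Y : ℝ) : ℝ :=
  ∑ᶠ (p : {v // Good a b v} × ℕ) (_ : (nrm p.1.1 : ℝ) ^ (p.2 + 1) ≤ Real.exp (Real.log Y ^ ρ')),
    weight ρ (((p.2 : ℝ) + 1) * Real.log (nrm p.1.1) / Real.log Y) *
      (trace a b p.1.1 (p.2 + 1) / (((p.2 : ℝ) + 1) * (nrm p.1.1 : ℝ) ^ (p.2 + 1)))

/-- `S_ρ(Y) + t log log Y` is bounded below for `Y → ∞`, for all `ρ' > ρ > ρ₀`. -/
def Lower (a b : 𝓞 K) (ρ₀ t : ℝ) : Prop :=
  ∀ ρ ρ' : ℝ, ρ₀ < ρ → ρ < ρ' → ∃ C : ℝ, ∀ᶠ Y : ℝ in atTop,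
    -C ≤ mean a b ρ ρ' Y + t * Real.log (Real.log Y)

open Classical in
/-- The group `E(K)` is infinite. -/
def HasInfinitelyManyPoints (a b : 𝓞 K) : Prop :=
  Infinite (⟨0, 0, 0, (a : K), (b : K)⟩ : WeierstrassCurve K).toAffine.Point

open Pool.Agent.TH942.ES
open Pool.Agent.V11333
open Pool.Agent.H921R2.TatePole (nm)

/-- the set of the good primes -/
def gs (a b : 𝓞 K) : Set (HeightOneSpectrum (𝓞 K)) := {v | Good a b v}

/-- the eigenvalues -/
noncomputable def al (a b : 𝓞 K) (v : gs a b) (j : Fin 2) : ℂ :=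
  rt (trV a b v.1) j * ((√(nm v.1 : ℝ) : ℝ) : ℂ)

theorem good_tr {a b : 𝓞 K} (v : gs a b) : |trV a b v.1| ≤ 1 := trV_abs (show GoodV a b v.1 from v.2)

theorem al_norm {a b : 𝓞 K} (v : gs a b) (j : Fin 2) : ‖al a b v j‖ ≤ (nm v.1 : ℝ) ^ (1 / 2 : ℝ) := by
  unfold al
  rw [norm_mul, Complex.norm_real, Real.norm_eq_abs, abs_of_nonneg (Real.sqrt_nonneg _),
    ← Real.sqrt_eq_rpow]
  exact mul_le_of_le_one_left (Real.sqrt_nonneg _) (rt_norm (good_tr v) j)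

theorem al_sq {a b : 𝓞 K} (v : gs a b) : ((√(nm v.1 : ℝ) : ℝ) : ℂ) ^ 2 = nm v.1 := by
  rw [← Complex.ofReal_pow, Real.sq_sqrt (Nat.cast_nonneg _), Complex.ofReal_natCast]

theorem al_poly {a b : 𝓞 K} (v : gs a b) (z : ℂ) :
    (1 - al a b v 0 * z) * (1 - al a b v 1 * z) =
      1 - ((nrm v.1 : ℂ) - pts a b v.1) * z + nrm v.1 * z ^ 2 := by
  have h1 := rt_prod (good_tr v) (((√(nm v.1 : ℝ) : ℝ) : ℂ) * z)
  have h2 := sqrt_nm_pos v.1
  have h3 : ((√(nm v.1 : ℝ) : ℝ) : ℂ) ≠ 0 := by exact_mod_cast h2.ne'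
  have h4 : (trV a b v.1 : ℂ) = ((nm v.1 : ℂ) - ptsV a b v.1) / (2 * ((√(nm v.1 : ℝ) : ℝ) : ℂ)) := by
    unfold trV
    push_cast
    rfl
  have h5 : (nrm v.1 : ℂ) = nm v.1 := rfl
  have h6 : (pts a b v.1 : ℂ) = ptsV a b v.1 := rfl
  unfold al
  rw [h5, h6]
  calc _ = (1 - rt (trV a b v.1) 0 * (((√(nm v.1 : ℝ) : ℝ) : ℂ) * z)) *
        (1 - rt (trV a b v.1) 1 * (((√(nm v.1 : ℝ) : ℝ) : ℂ) * z)) := by ring
    _ = 1 - 2 * trV a b v.1 * (((√(nm v.1 : ℝ) : ℝ) : ℂ) * z) +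
        (((√(nm v.1 : ℝ) : ℝ) : ℂ) * z) ^ 2 := h1
    _ = _ := by
      rw [mul_pow, al_sq, h4]
      field_simp

theorem al_sum {a b : 𝓞 K} (v : gs a b) :
    al a b v 0 + al a b v 1 = (nrm v.1 : ℂ) - pts a b v.1 := by
  have h1 := al_poly v 1
  have h2 := al_poly v (-1)
  linear_combination (h2 - h1) / 2

theorem al_mul {a b : 𝓞 K} (v : gs a b) : al a b v 0 * al a b v 1 = nrm v.1 := by
  have h1 := al_poly v 1
  have h2 := al_poly v (-1)
  linear_combination (h2 + h1) / 2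

theorem al_trace {a b : 𝓞 K} (v : gs a b) (k : ℕ) :
    ∑ j, al a b v j ^ k = ((trace a b v.1 k : ℝ) : ℂ) := by
  have h1 := al_sum v
  have h2 := al_mul v
  rw [Fin.sum_univ_two]
  induction k using Nat.twoStepInduction with
  | zero =>
    rw [trace]
    norm_num
  | one =>
    rw [trace, pow_one, pow_one, h1]
    push_cast
    rfl
  | more k ih1 ih2 =>
    rw [trace]
    push_cast
    rw [← ih1, ← ih2, ← h1, ← h2]
    ring

theorem al_pure (a b : 𝓞 K) : PR.Pure (1 / 2) (al a b) :=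
  ⟨al_norm, fun v k => by rw [al_trace, Complex.ofReal_im]⟩

theorem factor_eq {a b : 𝓞 K} (v : gs a b) (s : ℂ) : PR.factor (al a b) v s = factor a b v.1 s := by
  have h0 : (nrm v.1 : ℂ) ≠ 0 := by
    have h2 := PR.nrm_two v.1
    have h3 : (0 : ℝ) < nm v.1 := by linarith
    have h4 : (nrm v.1 : ℂ) = ((nm v.1 : ℝ) : ℂ) := by
      rw [Complex.ofReal_natCast]
      rfl
    rw [h4]
    exact_mod_cast h3.ne'
  unfold PR.factor factor
  have h1 : (nm v.1 : ℂ) = nrm v.1 := rfl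
  rw [Fin.prod_univ_two, ← mul_inv, h1, al_poly]
  congr 2
  rw [← Complex.cpow_nat_mul]
  calc (nrm v.1 : ℂ) * (nrm v.1 : ℂ) ^ (((2 : ℕ) : ℂ) * -s) =
        (nrm v.1 : ℂ) ^ (1 : ℂ) * (nrm v.1 : ℂ) ^ (((2 : ℕ) : ℂ) * -s) := by rw [Complex.cpow_one]
    _ = _ := by
      rw [← Complex.cpow_add _ _ h0]
      congr 1
      push_cast
      ring

theorem sector_eq (ρ : ℝ) : CP.Sector 1 ρ = Sector ρ := by
  unfold CP.Sector Sector
  rw [Complex.ofReal_one]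

theorem mean_eq (a b : 𝓞 K) (ρ ρ' Y : ℝ) : CP.mean 1 (al a b) ρ ρ' Y = mean a b ρ ρ' Y := by
  unfold CP.mean mean
  refine finsum_congr fun p => finsum_congr fun _ => ?_
  rw [al_trace, Complex.ofReal_re, Real.rpow_one]
  rfl

theorem real_iff (a b : 𝓞 K) (F : ℂ → ℂ) :
    CP.IsRealContinuation 1 (3 / 2) (al a b) F ↔ IsRealContinuation a b F := by
  unfold CP.IsRealContinuation IsRealContinuation
  simp only [factor_eq]
  rfl

theorem zero_iff (a b : 𝓞 K) (ρ₀ : ℝ) :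
    CP.ZeroFree 1 (3 / 2) (al a b) ρ₀ ↔ ZeroFree a b ρ₀ := by
  unfold CP.ZeroFree ZeroFree
  simp only [sector_eq, factor_eq]
  rfl

/-- the main step -/
theorem law {a b : 𝓞 K} {F : ℂ → ℂ} (hF : IsRealContinuation a b F) {ρ₀ : ℝ} (hρ₀ : 1 ≤ ρ₀) (t : ℝ) :
    Lower a b ρ₀ t ↔ (∃ m : ℕ, analyticOrderAt F 1 = m ∧ (m : ℝ) ≤ t) ∧ ZeroFree a b ρ₀ := by
  have h1 := CP.order_main (al_pure a b) (c := 1) (σ := 3 / 2) (by norm_num) (by norm_num) hρ₀
    ((real_iff a b F).2 hF) t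
  have k1 : CP.LowerR 1 (al a b) ρ₀ t ↔ Lower a b ρ₀ t := by
    unfold CP.LowerR Lower
    simp only [mean_eq]
  rw [k1, zero_iff, Complex.ofReal_one] at h1
  exact h1

/-- **Theorem.** Let `K` be a number field, `a, b ∈ 𝓞_K`, `E : y² = x³ + a x + b`, `F` a continuation of
`L(E, s)` along the real axis which is analytic at all real `s ≥ 1`, `ρ₀ ≥ 1` and `0 ≤ t < 1`.

(1) `S_ρ(Y) + t log log Y` is bounded below for all `ρ' > ρ > ρ₀` if and only if `L(E, 1) ≠ 0` and `L(E, s)`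
has a holomorphic continuation without zeros to the union of `Re s > 3/2` and the sector
`|arg (s - 1)| < π/(2ρ₀)`.

(2) If `L(E, s)` has such a continuation, then (`L(E, 1) = 0` if and only if `E(K)` is infinite) is equivalent
to (the lower bounds of (1) fail if and only if `E(K)` is infinite).

For `ρ₀ = 1` the sector is the half plane `Re s > 1`. -/
theorem result (a b : 𝓞 K) (F : ℂ → ℂ) (hF : IsRealContinuation a b F) (ρ₀ : ℝ) (hρ₀ : 1 ≤ ρ₀)
    (t : ℝ) (ht0 : 0 ≤ t) (ht1 : t < 1) :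
    (Lower a b ρ₀ t ↔ F 1 ≠ 0 ∧ ZeroFree a b ρ₀) ∧
    (ZeroFree a b ρ₀ → ((F 1 = 0 ↔ HasInfinitelyManyPoints a b) ↔
      (¬ Lower a b ρ₀ t ↔ HasInfinitelyManyPoints a b))) ∧
    Sector 1 = {s : ℂ | 1 < s.re} := by
  have hF1 : AnalyticAt ℂ F 1 := by simpa using hF.1 1 le_rfl
  have key : Lower a b ρ₀ t ↔ F 1 ≠ 0 ∧ ZeroFree a b ρ₀ := by
    rw [law hF hρ₀ t]
    refine and_congr_left fun _ => ?_
    constructor
    · rintro ⟨m, h1, h2⟩
      have h3 : m = 0 := by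
        have h4 : (m : ℝ) < 1 := by linarith
        have h5 : m < 1 := by exact_mod_cast h4
        omega
      rw [h3, Nat.cast_zero] at h1
      exact (hF1.analyticOrderAt_eq_zero).1 h1
    · intro h1
      exact ⟨0, by rw [Nat.cast_zero]; exact (hF1.analyticOrderAt_eq_zero).2 h1, by simpa using ht0⟩
  refine ⟨key, fun h => ?_, ?_⟩
  · rw [key]
    have h1 : F 1 = 0 ↔ ¬(F 1 ≠ 0 ∧ ZeroFree a b ρ₀) := by
      constructor
      · rintro h2 ⟨h3, -⟩
        exact h3 h2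
      · intro h2
        by_contra h3
        exact h2 ⟨h3, h⟩
    rw [← h1]
  · ext s
    rw [← sector_eq, CP.sector_shift, sect_one]
    simp only [Set.mem_ofPred_eq, Complex.sub_re, Complex.ofReal_re, sub_pos]

end Pool.Agent.Results.MP_8b7eba_nt.OneSidedVanishing
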